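import Pool.Agent.T2H84.SJ.Asm
import Pool.Agent.T2H84.SJ.T_PR
import Pool.Agent.T2H84.SJ.T_GPO
import Pool.Agent.T2H84.SJ.T_CIR
import Pool.Agent.T2H84.SJ.T_D2
import Pool.Agent.T2H84.SJ.T_CRT
import Pool.Agent.T2H84.SJ.T_TRF
import Pool.Agent.T2H84.SJ.T_DEC
import Pool.Agent.T2H84.SJ.T_R3
import Pool.Agent.T2H84.SJ.T_EUL
import Pool.Agent.T2H84.SJ.T_PA
import Pool.Agent.T2H84.SJ.T_CV
import Pool.Agent.T2H84.SJ.T_F1
import Pool.Agent.T2H84.SJ.T_GEN
import Pool.Agent.T2H84.SJ.T_STA
import Pool.Agent.T2H84.SJ.T_S3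
import Pool.Agent.T2H84.SJ.T_LOC
import Pool.Agent.T2H84.SJ.T_RAD
import Pool.Agent.T2H84.SJ.T_FIN
import Pool.Agent.T2H84.SJ.Sq

/-!
# Jacobian ideals of arrangements of rank 4 and girth at least 4 are syzygetic

Full answer (positive) to Q1 of MP_1ca51f_al.
-/

set_option autoImplicit false

namespace Pool.Agent.Results.MP_1ca51f_al.SyzygeticGirthFour

open Pool.Agent.T2H84.SJ

universe u

/-- Let `k` be a field of characteristic zero and let `lin (al i)`, `i = 1, …, m`, be nonzero, pairwise non-proportional linear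
forms in four variables which span the space of linear forms (rank 4), such that every circuit has at least four elements.
Then the Jacobian ideal of the product of the forms is syzygetic: the kernel `δ(J)` of `Sym² J → J²` is zero. -/
theorem result (k : Type u) [Field k] [CharZero k] (m : ℕ) (al : Fin m → Fin 4 → k)
    (hne : ∀ i, al i ≠ 0) (hnp : ∀ i j, i ≠ j → LinearIndependent k ![al i, al j])
    (hrank : Submodule.span k (Set.range al) = ⊤)
    (hgirth : ∀ S : Finset (Fin m), IsCircuit al S → 4 ≤ S.card) :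
    Sq.IsSyzygetic (Jac (∏ i, lin (al i))) :=
  Sq.isSyzygetic_of _ <| asm T_PR T_GPO T_CIR T_D2 T_CRT T_TRF T_DEC T_R3 T_EUL T_PA T_CV T_F1 T_GEN T_STA T_S3 T_LOC T_RAD T_FIN
    k m al hne hnp hrank hgirth

end Pool.Agent.Results.MP_1ca51f_al.SyzygeticGirthFour
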